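import Pool.Agent.Y734.R.Stms

/-! Project Y734/R, job INT (helper54): integrality from valuation rings. -/

set_option autoImplicit false

namespace Pool.Agent.Y734.R.INT

open Pool.Agent.Y734.M Pool.Agent.Y734.R

/-- fractions with monomial denominators -/
theorem frac {F ι : Type} [Field F] [Algebra ℚ F] [Fintype ι] (w : ι → F) (hw : ∀ i, w i ≠ 0)
    (c : F) (hc : c ∈ Subring.closure (Set.range w ∪ Set.range fun i => (w i)⁻¹)) :
    ∃ (μ : ι → ℕ) (G : MvPolynomial ι ℚ), (∏ i, w i ^ μ i) * c = MvPolynomial.aeval w G := by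
  classical
  have hmon : ∀ μ : ι → ℕ, MvPolynomial.aeval w (∏ i, (MvPolynomial.X i : MvPolynomial ι ℚ) ^ μ i) =
      ∏ i, w i ^ μ i := by
    intro μ
    rw [map_prod]
    refine Finset.prod_congr rfl (fun i _ => ?_)
    rw [map_pow, MvPolynomial.aeval_X]
  have hadd : ∀ μ ν : ι → ℕ, ∏ i, w i ^ (μ i + ν i) = (∏ i, w i ^ μ i) * ∏ i, w i ^ ν i := by
    intro μ ν
    rw [← Finset.prod_mul_distrib]
    exact Finset.prod_congr rfl (fun i _ => pow_add _ _ _)
  refine Subring.closure_induction ?_ ?_ ?_ ?_ ?_ ?_ hc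
  · rintro x (⟨i, rfl⟩ | ⟨i, rfl⟩)
    · exact ⟨0, MvPolynomial.X i, by simp⟩
    · refine ⟨Pi.single i 1, 1, ?_⟩
      have : ∏ j, w j ^ (Pi.single i 1 : ι → ℕ) j = w i := by
        rw [Finset.prod_eq_single i]
        · simp
        · intro j _ hj
          simp [Pi.single_apply, hj]
        · intro h
          exact absurd (Finset.mem_univ i) h
      show (∏ j, w j ^ (Pi.single i 1 : ι → ℕ) j) * (w i)⁻¹ = MvPolynomial.aeval w 1
      rw [this, mul_inv_cancel₀ (hw i), map_one]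
  · exact ⟨0, 0, by simp⟩
  · exact ⟨0, 1, by simp⟩
  · rintro x y _ _ ⟨μ, G, h1⟩ ⟨ν, H, h2⟩
    refine ⟨fun i => μ i + ν i, G * (∏ i, (MvPolynomial.X i : MvPolynomial ι ℚ) ^ ν i) +
      H * (∏ i, (MvPolynomial.X i : MvPolynomial ι ℚ) ^ μ i), ?_⟩
    rw [map_add, map_mul, map_mul, hmon, hmon, ← h1, ← h2, hadd]
    ring
  · rintro x _ ⟨μ, G, h1⟩
    exact ⟨μ, -G, by rw [map_neg, ← h1]; ring⟩
  · rintro x y _ _ ⟨μ, G, h1⟩ ⟨ν, H, h2⟩
    refine ⟨fun i => μ i + ν i, G * H, ?_⟩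
    rw [map_mul, ← h1, ← h2, hadd]
    ring

theorem intg : IntStmt := by
  intro F ι _ _ _ w t hw ht
  classical
  set s : Set F := Set.range w ∪ Set.range fun i => (w i)⁻¹ with hs
  have h1 : t ∈ (integralClosure (Subring.closure s) F).toSubring := by
    rw [← iInf_valuationSubring_superset, Subring.mem_iInf]
    rintro ⟨V, hV⟩
    refine ht V (fun i => ?_)
    have ha : V.valuation (w i) ≤ 1 := by
      rw [ValuationSubring.valuation_le_one_iff]
      exact hV (Or.inl ⟨i, rfl⟩)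
    have hb : V.valuation (w i)⁻¹ ≤ 1 := by
      rw [ValuationSubring.valuation_le_one_iff]
      exact hV (Or.inr ⟨i, rfl⟩)
    refine le_antisymm ha ?_
    rw [map_inv₀] at hb
    have h0 : V.valuation (w i) ≠ 0 := (Valuation.ne_zero_iff _).2 (hw i)
    by_contra hlt
    have hlt' : V.valuation (w i) < 1 := not_le.1 hlt
    have h3 : 1 < (V.valuation (w i))⁻¹ := (one_lt_inv₀ (zero_lt_iff.2 h0)).2 hlt'
    exact absurd hb (not_le.2 h3)
  have h2 : IsIntegral (Subring.closure s) t := h1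
  obtain ⟨p, hp, hpt⟩ := h2
  have hfr : ∀ j : Fin p.natDegree, ∃ (μ : ι → ℕ) (G : MvPolynomial ι ℚ),
      (∏ i, w i ^ μ i) * ((p.coeff j : Subring.closure s) : F) = MvPolynomial.aeval w G :=
    fun j => frac w hw _ (p.coeff j).2
  choose μ G hG using hfr
  refine ⟨p.natDegree, fun i => ∑ j, μ j i,
    fun j => G j * ∏ i, (MvPolynomial.X i : MvPolynomial ι ℚ) ^ (∑ j' ∈ Finset.univ.erase j, μ j' i), ?_⟩
  have hG' : ∀ j : Fin p.natDegree, MvPolynomial.aeval w
      (G j * ∏ i, (MvPolynomial.X i : MvPolynomial ι ℚ) ^ (∑ j' ∈ Finset.univ.erase j, μ j' i)) =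
      (∏ i, w i ^ (∑ j, μ j i)) * ((p.coeff j : Subring.closure s) : F) := by
    intro j
    have e : ∏ i, w i ^ (∑ j, μ j i) = (∏ i, w i ^ μ j i) *
        ∏ i, w i ^ (∑ j' ∈ Finset.univ.erase j, μ j' i) := by
      rw [← Finset.prod_mul_distrib]
      refine Finset.prod_congr rfl (fun i _ => ?_)
      rw [← pow_add, Finset.add_sum_erase _ (fun j => μ j i) (Finset.mem_univ j)]
    rw [map_mul, ← hG j, map_prod, e]
    simp only [map_pow, MvPolynomial.aeval_X]
    ring
  simp only [hG']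
  have h4 : t ^ p.natDegree + ∑ j : Fin p.natDegree,
      ((p.coeff j : Subring.closure s) : F) * t ^ (j : ℕ) = 0 := by
    have h5 := hpt
    rw [hp.as_sum, Polynomial.eval₂_add, Polynomial.eval₂_X_pow, Polynomial.eval₂_finset_sum,
      Finset.sum_range] at h5
    rw [← h5]
    congr 1
    refine Finset.sum_congr rfl (fun j _ => ?_)
    rw [Polynomial.eval₂_mul, Polynomial.eval₂_C, Polynomial.eval₂_X_pow]
    rfl
  calc (∏ i, w i ^ ∑ j, μ j i) * t ^ p.natDegree + ∑ j : Fin p.natDegree,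
        (∏ i, w i ^ (∑ j, μ j i)) * ((p.coeff j : Subring.closure s) : F) * t ^ (j : ℕ)
      = (∏ i, w i ^ ∑ j, μ j i) * (t ^ p.natDegree + ∑ j : Fin p.natDegree,
        ((p.coeff j : Subring.closure s) : F) * t ^ (j : ℕ)) := by
        rw [mul_add, Finset.mul_sum]
        simp only [mul_assoc]
    _ = 0 := by rw [h4, mul_zero]

end Pool.Agent.Y734.R.INT
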